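import Pool.Agent.H34.TAM.Stmts3

/-!
# Board per, row DIF: derivations and the action of the tensor algebra
-/

set_option autoImplicit false

noncomputable section

open scoped TensorProduct

namespace Pool.PER

open Pool.CGR Pool.CGS Pool.TAM Pool.AUT MulOpposite

namespace DIF93

theorem ac_tmul {m : ℕ} (a : Fr m) (b : (Fr m)ᵐᵒᵖ) (q : Fr m) :
    ac (a ⊗ₜ[ℂ] b) q = a * q * unop b := by
  unfold ac
  rw [AlgHom.mulLeftRight_apply]

theorem ac_mul {m : ℕ} (z z' : Te m) (q : Fr m) : ac (z * z') q = ac z (ac z' q) := by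
  unfold ac
  rw [map_mul]
  rfl

theorem ac_add {m : ℕ} (z z' : Te m) (q : Fr m) : ac (z + z') q = ac z q + ac z' q := by
  unfold ac
  rw [map_add]
  rfl

theorem ac_add_right {m : ℕ} (z : Te m) (q q' : Fr m) : ac z (q + q') = ac z q + ac z q' := by
  unfold ac
  rw [map_add]

theorem ac_zero {m : ℕ} (q : Fr m) : ac (0 : Te m) q = 0 := by
  unfold ac
  rw [map_zero]
  rfl

theorem ac_one {m : ℕ} (q : Fr m) : ac (1 : Te m) q = q := by
  unfold ac
  rw [map_one]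
  rfl

theorem ac_ph {m : ℕ} (φ : Fr m →ₐ[ℂ] Fr m) (z : Te m) (q : Fr m) :
    φ (ac z q) = ac (ph φ z) (φ q) := by
  induction z using TensorProduct.induction_on with
  | zero => rw [ac_zero, map_zero, map_zero, ac_zero]
  | tmul a b =>
    have h : ph φ (a ⊗ₜ[ℂ] b) = φ a ⊗ₜ[ℂ] (op (φ (unop b))) := by
      unfold ph
      rw [Algebra.TensorProduct.map_tmul]
      rfl
    rw [h, ac_tmul, ac_tmul, map_mul, map_mul, unop_op]
  | add z z' h h' => rw [ac_add, map_add, map_add, ac_add, h, h']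

theorem der_one {B : Type} [Ring B] [Algebra ℂ B] (δ : B →ₗ[ℂ] B) (h : IsDer δ) : δ 1 = 0 := by
  have h1 := h 1 1
  rw [mul_one, mul_one, one_mul] at h1
  exact left_eq_add.1 h1

theorem der_alg {B : Type} [Ring B] [Algebra ℂ B] (δ : B →ₗ[ℂ] B) (h : IsDer δ) (r : ℂ) :
    δ (algebraMap ℂ B r) = 0 := by
  rw [Algebra.algebraMap_eq_smul_one, map_smul, der_one δ h, smul_zero]

theorem pd_one {m : ℕ} {D : Fin m → (Fr m →ₗ[ℂ] Te m)} (hD : IsPd D) (k : Fin m) :
    D k 1 = 0 := by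
  have h1 := hD.mul k 1 1
  rw [mul_one, op_one] at h1
  have h2 : ((1 : Fr m) ⊗ₜ[ℂ] (1 : (Fr m)ᵐᵒᵖ)) = (1 : Te m) := rfl
  rw [h2, one_mul] at h1
  exact left_eq_add.1 h1

theorem pd_alg {m : ℕ} {D : Fin m → (Fr m →ₗ[ℂ] Te m)} (hD : IsPd D) (k : Fin m) (r : ℂ) :
    D k (algebraMap ℂ (Fr m) r) = 0 := by
  rw [Algebra.algebraMap_eq_smul_one, map_smul, pd_one hD, smul_zero]

theorem chain {m : ℕ} {D : Fin m → (Fr m →ₗ[ℂ] Te m)} (hD : IsPd D) {δ : Fr m →ₗ[ℂ] Fr m}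
    (hδ : IsDer δ) (φ : Fr m →ₐ[ℂ] Fr m) (H : Fr m) :
    δ (φ H) = ∑ j, ac (ph φ (D j H)) (δ (φ (io j))) := by
  induction H using FreeAlgebra.induction with
  | grade0 r =>
    rw [AlgHom.commutes, der_alg δ hδ]
    symm
    refine Finset.sum_eq_zero fun j _ => ?_
    rw [pd_alg hD, map_zero, ac_zero]
  | grade1 i =>
    rw [Finset.sum_eq_single i]
    · rw [hD.gen, if_pos rfl, map_one, ac_one]
    · intro j _ hj
      rw [hD.gen, if_neg (fun h => hj h.symm), map_zero, ac_zero]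
    · intro h
      exact absurd (Finset.mem_univ i) h
  | mul a b ha hb =>
    have h : ∀ j, ac (ph φ (D j (a * b))) (δ (φ (io j))) =
        φ a * ac (ph φ (D j b)) (δ (φ (io j))) + ac (ph φ (D j a)) (δ (φ (io j))) * φ b := by
      intro j
      rw [hD.mul, map_add, map_mul, map_mul, ac_add, ac_mul, ac_mul]
      have e1 : ph φ (a ⊗ₜ[ℂ] (1 : (Fr m)ᵐᵒᵖ)) = φ a ⊗ₜ[ℂ] (1 : (Fr m)ᵐᵒᵖ) := by
        unfold ph
        rw [Algebra.TensorProduct.map_tmul, map_one]
      have e2 : ph φ ((1 : Fr m) ⊗ₜ[ℂ] op b) = (1 : Fr m) ⊗ₜ[ℂ] op (φ b) := by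
        unfold ph
        rw [Algebra.TensorProduct.map_tmul, map_one]
        rfl
      rw [e1, e2, ac_tmul, ac_tmul, unop_one, mul_one, unop_op, one_mul]
    rw [map_mul, hδ, ha, hb, Finset.sum_congr rfl (fun j _ => h j), Finset.sum_add_distrib,
      Finset.mul_sum, Finset.sum_mul, add_comm]
  | add a b ha hb =>
    rw [map_add, map_add, ha, hb, ← Finset.sum_add_distrib]
    refine Finset.sum_congr rfl fun j _ => ?_
    rw [map_add, map_add, ac_add]

theorem chain_id {m : ℕ} {D : Fin m → (Fr m →ₗ[ℂ] Te m)} (hD : IsPd D) {δ : Fr m →ₗ[ℂ] Fr m}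
    (hδ : IsDer δ) (f : Fr m) : δ f = ∑ k, ac (D k f) (δ (io k)) := by
  have h := chain hD hδ (AlgHom.id ℂ (Fr m)) f
  have e : ∀ z : Te m, ph (AlgHom.id ℂ (Fr m)) z = z := by
    intro z
    induction z using TensorProduct.induction_on with
    | zero => rw [map_zero]
    | tmul a b =>
      unfold ph
      rw [Algebra.TensorProduct.map_tmul]
      rfl
    | add z z' h h' => rw [map_add, h, h']
  simp only [e] at h
  exact h

end DIF93

theorem dif_thm : DIFStmt := by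
  intro m D hD
  refine ⟨DIF93.ac_mul, DIF93.ac_ph, ?_, ?_⟩
  · intro δ hδ f
    exact DIF93.chain_id hD hδ f
  · intro δ hδ φ H
    exact DIF93.chain hD hδ φ H

end Pool.PER
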